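import Pool.Agent.Lib.MP_5349a4_pr.M.Iface2
import Pool.Agent.Lib.MP_5349a4_pr.M.Base

/-!
# Module THMA: Theorem A
-/

set_option autoImplicit false
open MeasureTheory Set
open scoped ENNReal NNReal

namespace Pool.Agent.Lib.MP_5349a4_pr.H63

theorem pow_grow : ∀ k : ℕ, 35 ≤ k → 12800000 * (k + 1) ^ 2 ≤ 2 ^ (k - 1) := by
  intro k hk
  induction k, hk using Nat.le_induction with
  | base => norm_num
  | succ n hn ih =>
    have h : 2 ^ (n + 1 - 1) = 2 * 2 ^ (n - 1) := by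
      rw [← pow_succ']; congr 1; omega
    rw [h]
    nlinarith

theorem clog_sq : ∀ d : ℕ, 1225000 ≤ d → 1000 * (1 + Nat.clog 2 (12800 * d)) ^ 2 ≤ d := by
  intro d hd
  set k := Nat.clog 2 (12800 * d) with hk
  by_contra hlt
  push Not at hlt
  by_cases h35 : 35 ≤ k
  · have h1 := pow_grow k h35
    have h2 : 2 ^ (k - 1) < 12800 * d := Nat.pow_pred_clog_lt_self (by norm_num) (by omega)
    nlinarith
  · have h3 : 1 + k ≤ 35 := by omega
    have h4 : (1 + k) ^ 2 ≤ 35 ^ 2 := Nat.pow_le_pow_left h3 2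
    omega

theorem wt_mono {d : ℕ} (lam : ℝ≥0) (V : Set (Eu d)) (f g : Eu d → ℝ≥0∞) (x : Eu d)
    (h : ∀ y, f y ≤ g y) : wt lam V f x ≤ wt lam V g x := by
  unfold wt
  gcongr
  · exact h x
  · exact h _

theorem ofReal_pow2 (n : ℕ) : ENNReal.ofReal ((2 : ℝ) ^ n) = 2 ^ n := by
  rw [ENNReal.ofReal_pow (by norm_num)]
  norm_num

theorem gam_le (d : ℕ) : (Gam d : ℝ≥0∞) ≤ 2 ^ (Nat.clog 2 (12800 * d)) := by
  have h : 12800 * d ≤ 2 ^ (Nat.clog 2 (12800 * d)) := Nat.le_pow_clog (by norm_num) _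
  have h2 : ((12800 * d : ℕ) : ℝ≥0∞) ≤ ((2 ^ (Nat.clog 2 (12800 * d)) : ℕ) : ℝ≥0∞) := by
    exact_mod_cast h
  have h3 : (Gam d : ℝ≥0∞) = ((12800 * d : ℕ) : ℝ≥0∞) := by
    unfold Gam
    push_cast
    rfl
  rw [h3]
  refine h2.trans_eq ?_
  push_cast
  rfl

theorem thma (hB : BootStatement) (hV : VstStatement) (hP : PtwStatement) (hT : TauFStatement) :
    ThmAStatement := by
  obtain ⟨d0, hd0⟩ := hB
  refine ⟨max d0 1225000, fun d hd => ?_⟩
  have hd1 : d0 ≤ d := le_trans (le_max_left _ _) hd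
  have hd2 : 1225000 ≤ d := le_trans (le_max_right _ _) hd
  obtain ⟨lam, hlam, hHyp, h3⟩ := hd0 d hd1
  have hTF : TauFacts d := hT d (by omega)
  set k := Nat.clog 2 (12800 * d) with hk
  have hGam : (Gam d : ℝ≥0∞) ≤ 2 ^ k := gam_le d
  have hkd : 1000 * (1 + k) ^ 2 ≤ d := clog_sq d hd2
  have hκd : 1 + k ≤ d := by nlinarith
  have hA1 : (1 : ℝ≥0) ≤ 2 ^ (2 * d + 12 * k) := one_le_pow₀ (by norm_num)
  refine ⟨lam, 1 + k, 2 ^ (2 * d + 12 * k), hkd, by omega, hlam, hA1, ?_, ?_, h3⟩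
  · intro V x y R hDom hR
    obtain ⟨n, hn1, hn2⟩ := exists_nat_pow_near hR (one_lt_two)
    have h1 : wt lam V (fun b => ind (b ∈ bal y R)) x
        ≤ wt lam V (fun b => ind (b ∈ bal y (2 ^ (n + 1)))) x := by
      apply wt_mono
      intro b
      apply ind_mono
      intro hb
      exact Metric.closedBall_subset_closedBall hn2.le hb
    have h2 := hV d (by omega) hTF lam hHyp (n + 1) V x y hDom
    have h4 : ((2 : ℝ≥0∞) ^ n) ≤ ENNReal.ofReal R := by
      rw [← ofReal_pow2]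
      exact ENNReal.ofReal_le_ofReal hn1
    calc wt lam V (fun b => ind (b ∈ bal y R)) x
        ≤ (Gam d : ℝ≥0∞) ^ (n + 1 + 9) := h1.trans h2
      _ ≤ (2 ^ k) ^ (n + 1 + 9) := by gcongr
      _ = 2 ^ (10 * k) * (2 ^ n) ^ k := by rw [← pow_mul, ← pow_mul, ← pow_add]; congr 1; ring
      _ ≤ 2 ^ (2 * d + 12 * k) * ENNReal.ofReal R ^ k := by
          gcongr
          · norm_num
          · omega
      _ = 2 ^ (2 * d + 12 * k) * ENNReal.ofReal (R ^ k) := by
          rw [ENNReal.ofReal_pow (by linarith)]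
      _ ≤ 2 ^ (2 * d + 12 * k) * ENNReal.ofReal (R ^ (1 + k)) := by
          gcongr
          omega
      _ = ((2 ^ (2 * d + 12 * k) : ℝ≥0) : ℝ≥0∞) * ENNReal.ofReal (R ^ (1 + k)) := by
          push_cast; rfl
  · intro V x y hDom hxy
    obtain ⟨n, hn1, hn2⟩ := exists_nat_pow_near hxy (one_lt_two)
    have h1 : ENNReal.ofReal (dist x y ^ (d - (1 + k))) ≤ (2 ^ (n + 1)) ^ (d - (1 + k)) := by
      rw [← ofReal_pow2, ← ENNReal.ofReal_pow (by positivity)]
      apply ENNReal.ofReal_le_ofReal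
      gcongr
    have hkey : tau lam V x y * 2 ^ (n * (d - (1 + k))) ≤ 2 ^ d * 2 ^ (12 * k) := by
      rcases Nat.eq_zero_or_pos n with h0 | hpos
      · subst h0
        rw [zero_mul, pow_zero, mul_one]
        refine (hTF.le_one lam V x y hDom).trans ?_
        rw [← pow_add]
        exact one_le_pow₀ (by norm_num)
      · have h := hP d (by omega) hTF lam hHyp n V x y hDom hpos hn1
        have h5 : (2 : ℝ≥0∞) ^ (n * (d - 1)) = 2 ^ (n * (d - (1 + k))) * 2 ^ (n * k) := by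
          rw [← pow_add, ← mul_add]
          congr 2
          omega
        have h6 : tau lam V x y * 2 ^ (n * (d - (1 + k))) * 2 ^ (n * k)
            ≤ 2 ^ d * 2 ^ (12 * k) * 2 ^ (n * k) := by
          calc tau lam V x y * 2 ^ (n * (d - (1 + k))) * 2 ^ (n * k)
              = tau lam V x y * 2 ^ (n * (d - 1)) := by rw [h5, mul_assoc]
            _ ≤ 2 ^ d * (Gam d : ℝ≥0∞) ^ (n + 12) := h
            _ ≤ 2 ^ d * (2 ^ k) ^ (n + 12) := by gcongr
            _ = 2 ^ d * 2 ^ (12 * k) * 2 ^ (n * k) := by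
                rw [← pow_mul, mul_assoc, ← pow_add]; congr 2; ring
        have hne : (2 : ℝ≥0∞) ^ (n * k) ≠ 0 := by positivity
        have hnt : (2 : ℝ≥0∞) ^ (n * k) ≠ ∞ := ENNReal.pow_ne_top (by norm_num)
        have h7 := ENNReal.div_le_div_right h6 (2 ^ (n * k))
        rwa [ENNReal.mul_div_cancel_right hne hnt, ENNReal.mul_div_cancel_right hne hnt] at h7
    calc tau lam V x y * ENNReal.ofReal (dist x y ^ (d - (1 + k)))
        ≤ tau lam V x y * (2 ^ (n + 1)) ^ (d - (1 + k)) := by gcongr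
      _ = tau lam V x y * 2 ^ (n * (d - (1 + k))) * 2 ^ (d - (1 + k)) := by
          rw [mul_assoc, ← pow_add, ← pow_mul]; congr 2; ring
      _ ≤ 2 ^ d * 2 ^ (12 * k) * 2 ^ (d - (1 + k)) := by gcongr
      _ = 2 ^ (d + 12 * k + (d - (1 + k))) := by rw [← pow_add, ← pow_add]
      _ ≤ 2 ^ (2 * d + 12 * k) := by
          apply pow_le_pow_right₀ (by norm_num)
          omega
      _ = ((2 ^ (2 * d + 12 * k) : ℝ≥0) : ℝ≥0∞) := by push_cast; rfl

end Pool.Agent.Lib.MP_5349a4_pr.H63
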